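import Pool.Agent.H37.CP.Targets

/-! Row WEI of the board `cpe_modules`: the weights of the levels. -/

set_option autoImplicit false

namespace Pool.Agent.H98.CPE

open Finset Pool.Agent.H37.CP

lemma four_step (s a : ℝ) (hs : 0 ≤ s) (ha : 0 ≤ a) :
    (s + a) ^ 4 ≤ (8 / 7 : ℝ) ^ 3 * s ^ 4 + 512 * a ^ 4 := by
  have hq : 0 ≤ (s - 7 * a) ^ 2 * (169 / 343 * s ^ 2 + 142 / 49 * (s * a) + 73 / 7 * a ^ 2) := by
    positivity
  have e : (8 / 7 : ℝ) ^ 3 * s ^ 4 + 512 * a ^ 4 - (s + a) ^ 4 =
      (s - 7 * a) ^ 2 * (169 / 343 * s ^ 2 + 142 / 49 * (s * a) + 73 / 7 * a ^ 2) := by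
    ring
  linarith

theorem pf_WEI : S_WEI := by
  refine ⟨?_, ?_⟩
  · intro L a ha
    induction L with
    | zero => simp
    | succ L ih =>
      have hs : 0 ≤ ∑ l ∈ range L, a l := Finset.sum_nonneg fun l _ => ha l
      have h1 := four_step (∑ l ∈ range L, a l) (a L) hs (ha L)
      have h2 : ∑ l ∈ range L, (8 / 7 : ℝ) ^ (3 * (L + 1 - 1 - l)) * a l ^ 4 =
          (8 / 7 : ℝ) ^ 3 * ∑ l ∈ range L, (8 / 7 : ℝ) ^ (3 * (L - 1 - l)) * a l ^ 4 := by
        rw [Finset.mul_sum]
        refine Finset.sum_congr rfl fun l hl => ?_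
        have h3 : 3 * (L + 1 - 1 - l) = 3 + 3 * (L - 1 - l) := by
          have := Finset.mem_range.mp hl
          omega
        rw [h3, pow_add]
        ring
      rw [Finset.sum_range_succ, Finset.sum_range_succ, h2]
      have h4 : L + 1 - 1 - L = 0 := by omega
      rw [h4, Nat.mul_zero, pow_zero, one_mul]
      have h5 : (0 : ℝ) ≤ (8 / 7 : ℝ) ^ 3 := by positivity
      have h6 := mul_le_mul_of_nonneg_left ih h5
      linarith
  · intro L
    have key : ∑ l ∈ range L, (8 / 7 : ℝ) ^ (3 * (L - 1 - l)) / 2 ^ (L - 1 - l) ≤ 343 / 87 := by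
      induction L with
      | zero => simp; norm_num
      | succ L ih =>
        have h2 : ∑ l ∈ range L, (8 / 7 : ℝ) ^ (3 * (L + 1 - 1 - l)) / 2 ^ (L + 1 - 1 - l) =
            (256 / 343 : ℝ) * ∑ l ∈ range L, (8 / 7 : ℝ) ^ (3 * (L - 1 - l)) / 2 ^ (L - 1 - l) := by
          rw [Finset.mul_sum]
          refine Finset.sum_congr rfl fun l hl => ?_
          have h3 : 3 * (L + 1 - 1 - l) = 3 + 3 * (L - 1 - l) := by
            have := Finset.mem_range.mp hl
            omega
          have h4 : L + 1 - 1 - l = 1 + (L - 1 - l) := by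
            have := Finset.mem_range.mp hl
            omega
          rw [h3, h4, pow_add, pow_add]
          ring
        rw [Finset.sum_range_succ, h2]
        have h4 : L + 1 - 1 - L = 0 := by omega
        rw [h4, Nat.mul_zero, pow_zero, pow_zero, div_one]
        linarith
    linarith

end Pool.Agent.H98.CPE
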